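import Pool.Agent.Helper76.PC.Final

/-!
MP_c33217_co: the permanent of a C4-free 0-1 matrix with e ones; Q1 in full.
-/

namespace Pool.Agent.Results.MP_c33217_co.SharpPermanentBound

/-- every C4-free 0-1 matrix of order n with exactly e ones has permanent at most
2 ^ (n - e / 3) * 24 ^ ((e - 2 n) / 7), and at most 24 ^ (n / 7) if e is at most 3 n -/
theorem result (n : ℕ) (A : Matrix (Fin n) (Fin n) ℕ) (e : ℕ)
    (h01 : ∀ i j, A i j = 0 ∨ A i j = 1)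
    (hC4 : ∀ i i' j j', i ≠ i' → j ≠ j' →
      ¬ (A i j = 1 ∧ A i j' = 1 ∧ A i' j = 1 ∧ A i' j' = 1))
    (he : (Finset.univ.filter (fun p : Fin n × Fin n => A p.1 p.2 = 1)).card = e) :
    (A.permanent : ℝ) ≤ (2 : ℝ) ^ ((n : ℝ) - e / 3) * (24 : ℝ) ^ (((e : ℝ) - 2 * n) / 7) ∧
    (e ≤ 3 * n → (A.permanent : ℝ) ≤ (24 : ℝ) ^ ((n : ℝ) / 7)) := by
  have h := Pool.Agent.Helper76.PC.final_mat n A h01
    (fun i i' j j' hi hj a b c d => hC4 i i' j j' hi hj ⟨a, b, c, d⟩)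
  rw [he] at h
  exact ⟨h, fun h3 => le_trans h (Pool.Agent.Helper76.PC.main_le n e h3)⟩

end Pool.Agent.Results.MP_c33217_co.SharpPermanentBound
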